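import Pool.Agent.Q262.Circ.I8000

/-!
`f(50) = 8000` is non-MC.
-/

set_option autoImplicit false
set_option maxRecDepth 100000

namespace Pool.Agent.Results.MP_2ab2dc_nt.F50NonMC

open Q262.Circ

/-- `f(k)`, the number of lattice points enclosed by the circle with centre `(1/2, 1/2)` and
radius `√(k² + k + 1/2)`. -/
noncomputable def f (k : ℕ) : ℕ :=
  (enclosed (1 / 2) (1 / 2) (Real.sqrt ((k : ℝ) ^ 2 + k + 1 / 2))).ncard

theorem f_eq (k : ℕ) : f k =
    boxCnt 2 (2 * (k + 1) + 1) (2 * (k + 1) + 1) (4 * (k ^ 2 + k) + 2) (2 * (k + 1) + 1)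
      (2 * (k + 1) + 1) 0 := by
  have h : enclosed (1 / 2) (1 / 2) (Real.sqrt ((k : ℝ) ^ 2 + k + 1 / 2)) =
      TS 2 1 1 (4 * (k ^ 2 + k) + 2) := by
    rw [enclosed_eq, Real.sq_sqrt (by positivity), ← S_eq_TS (by norm_num)]
    congr 1
    · norm_num
    · norm_num
    · push_cast; ring
  have hk : 4 * (k ^ 2 + k) + 2 ≤ (2 * (k + 1 + 1) - 1) * (2 * (k + 1 + 1) - 1) := by
    rw [show 2 * (k + 1 + 1) - 1 = 2 * k + 3 by omega]; nlinarith
  rw [f, h, Set.ncard_def, TS_encard (M := k + 1) (by norm_num) (by norm_num) hk hk,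
    ENat.toNat_natCast]

theorem f50 : f 50 = 8000 := by rw [f_eq]; decide +kernel

/-- Part (a) of the assertion fails: some `f(k)`, namely `f(50) = 8000`, is non-MC. -/
theorem result : (∃ k : ℕ, 1 ≤ k ∧ ¬ MC (f k)) ∧ f 50 = 8000 ∧ ¬ MC (f 50) := by
  have h1 : ¬ MC (f 50) := by rw [f50]; exact I8000.nonMC_8000
  exact ⟨⟨50, by norm_num, h1⟩, f50, h1⟩

end Pool.Agent.Results.MP_2ab2dc_nt.F50NonMC
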